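import Pool.Agent.P.MP_d9baa8_co.Reg.Main

/-!
For large `J` the inequality `H (I + 1, J) ≤ H (I, J) + J` for disjoint Golomb rulers fails for
at most `ε J` values of `I`.
-/

namespace Pool.Agent.Results.MP_d9baa8_co.FewExceptions

open Pool.Agent.P.MP_d9baa8_co.Reg

theorem result (ε : ℝ) (hε : 0 < ε) : ∃ J₀ : ℕ, ∀ J ≥ J₀,
    {I : ℕ | 1 ≤ I ∧ H I J + J < H (I + 1) J}.Finite ∧
    ({I : ℕ | 1 ≤ I ∧ H I J + J < H (I + 1) J}.ncard : ℝ) ≤ ε * J := by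
  obtain ⟨J₀, h⟩ := main hε
  exact ⟨J₀, fun J hJ => (h J hJ).2⟩

end Pool.Agent.Results.MP_d9baa8_co.FewExceptions
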