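import Pool.Agent.P.MP_d9baa8_co.Reg.Main

/-!
For large `J` the optimal families of disjoint Golomb rulers are regular as soon as
`I ≥ (1 + ε) J`; in that range the inequality `H (I + 1, J) ≤ H (I, J) + J` follows.
-/

namespace Pool.Agent.Results.MP_d9baa8_co.Regular

open Pool.Agent.P.MP_d9baa8_co.Reg

theorem result (ε : ℝ) (hε : 0 < ε) : ∃ J₀ : ℕ, ∀ J ≥ J₀,
    ∀ I : ℕ, (1 + ε) * J ≤ I → H I J = I * J ∧ H (I + 1) J ≤ H I J + J := by
  obtain ⟨J₀, h⟩ := main hε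
  exact ⟨J₀, fun J hJ => (h J hJ).1⟩

end Pool.Agent.Results.MP_d9baa8_co.Regular
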