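import Pool.Agent.P.MP_d9baa8_co.Sumset

namespace Pool.Agent.Results.MP_d9baa8_co.TwoRulers

open Finset

/-- A Golomb ruler: the differences `a - b` with `a ≠ b` in `A` are pairwise distinct. -/
def IsGolomb (A : Finset ℤ) : Prop :=
  ∀ a ∈ A, ∀ b ∈ A, ∀ c ∈ A, ∀ d ∈ A, a ≠ b → c ≠ d → a - b = c - d → a = c ∧ b = d

/-- There are `I` pairwise disjoint Golomb rulers with `J` marks each inside the integers from `1` to `n`. -/
def HasDGR (I J n : ℕ) : Prop :=
  ∃ A : Fin I → Finset ℤ, (∀ i, A i ⊆ Icc (1 : ℤ) n ∧ (A i).card = J ∧ IsGolomb (A i)) ∧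
    ∀ i j, i ≠ j → Disjoint (A i) (A j)

/-- The least `n` for which `HasDGR I J n` holds. -/
noncomputable def H (I J : ℕ) : ℕ := sInf {n | HasDGR I J n}

theorem exists_ruler (J : ℕ) : ∃ (n : ℕ) (A : Finset ℤ), A ⊆ Icc (1 : ℤ) n ∧ A.card = J ∧
    IsGolomb A := by
  induction J with
  | zero => exact ⟨0, ∅, by simp, rfl, by simp [IsGolomb]⟩
  | succ J ih =>
    obtain ⟨n, A, h1, h2, h3⟩ := ih
    have hb : ∀ a ∈ A, 1 ≤ a ∧ a ≤ n := fun a ha => mem_Icc.1 (h1 ha)
    have hn : (2 * (n : ℤ) + 1) ∉ A := fun h => by have := hb _ h; omega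
    refine ⟨2 * n + 1, insert (2 * (n : ℤ) + 1) A, ?_, by rw [card_insert_of_notMem hn, h2], ?_⟩
    · intro x hx
      rcases mem_insert.1 hx with rfl | hx
      · simp only [mem_Icc]; push_cast; omega
      · have := hb x hx
        simp only [mem_Icc]; push_cast; omega
    · intro a ha b hb' c hc d hd hab hcd h
      have ha' := (mem_insert.1 ha).imp id fun h => And.intro h (hb a h)
      have hb'' := (mem_insert.1 hb').imp id fun h => And.intro h (hb b h)
      have hc' := (mem_insert.1 hc).imp id fun h => And.intro h (hb c h)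
      have hd' := (mem_insert.1 hd).imp id fun h => And.intro h (hb d h)
      rcases ha' with ha' | ha' <;> rcases hb'' with hb'' | hb'' <;> rcases hc' with hc' | hc' <;>
        rcases hd' with hd' | hd'
      all_goals first
        | omega
        | exact h3 a ha'.1 b hb''.1 c hc'.1 d hd'.1 hab hcd h

theorem two_of_one {J n : ℕ} (h : HasDGR 1 J n) : HasDGR 2 J (n + J) := by
  obtain ⟨A, hA, -⟩ := h
  obtain ⟨h1, h2, h3⟩ := hA 0
  obtain ⟨δ, hδ, hne⟩ := Pool.Agent.P.MP_d9baa8_co.exists_gap (A := A 0) h3 ((n : ℤ) + 1)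
  rw [h2, abs_le] at hδ
  have hb : ∀ a ∈ A 0, 1 ≤ a ∧ a ≤ n := fun a ha => mem_Icc.1 (h1 ha)
  set s : ℤ := max (-δ) 0 with hs
  have hd : Disjoint ((A 0).image fun a => a + s) ((A 0).image fun a => n + 1 + δ + s - a) := by
    rw [Finset.disjoint_left]
    intro x hx hy
    obtain ⟨a, ha, rfl⟩ := mem_image.1 hx
    obtain ⟨b, hb', hab⟩ := mem_image.1 hy
    exact hne a ha b hb' (by omega)
  refine ⟨![(A 0).image fun a => a + s, (A 0).image fun a => n + 1 + δ + s - a], ?_, ?_⟩
  · intro i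
    fin_cases i
    · refine ⟨fun x hx => ?_, ?_, ?_⟩
      · obtain ⟨a, ha, rfl⟩ := mem_image.1 hx
        have := hb a ha
        simp only [mem_Icc]; push_cast; omega
      · exact (card_image_of_injective _ (add_left_injective s)).trans h2
      · intro a0 ha0 b0 hb0 c0 hc0 d0 hd0 hab hcd h
        obtain ⟨a, ha, rfl⟩ := mem_image.1 ha0
        obtain ⟨b, hb', rfl⟩ := mem_image.1 hb0
        obtain ⟨c, hc, rfl⟩ := mem_image.1 hc0
        obtain ⟨d, hd', rfl⟩ := mem_image.1 hd0
        have := h3 a ha b hb' c hc d hd' (by omega) (by omega) (by omega)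
        omega
    · refine ⟨fun x hx => ?_, ?_, ?_⟩
      · obtain ⟨a, ha, rfl⟩ := mem_image.1 hx
        have := hb a ha
        simp only [mem_Icc]; push_cast; omega
      · exact (card_image_of_injective _ sub_right_injective).trans h2
      · intro a0 ha0 b0 hb0 c0 hc0 d0 hd0 hab hcd h
        obtain ⟨a, ha, rfl⟩ := mem_image.1 ha0
        obtain ⟨b, hb', rfl⟩ := mem_image.1 hb0
        obtain ⟨c, hc, rfl⟩ := mem_image.1 hc0
        obtain ⟨d, hd', rfl⟩ := mem_image.1 hd0
        have := h3 b hb' a ha d hd' c hc (by omega) (by omega) (by omega)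
        omega
  · intro i j hij
    fin_cases i <;> fin_cases j
    · exact absurd rfl hij
    · exact hd
    · exact hd.symm
    · exact absurd rfl hij

/-- The case `I = 1` of the conjecture `H (I + 1, J) ≤ H (I, J) + J`. -/
theorem result (J : ℕ) : H 2 J ≤ H 1 J + J := by
  obtain ⟨n, A, hA⟩ := exists_ruler J
  have hne : {n | HasDGR 1 J n}.Nonempty :=
    ⟨n, fun _ => A, fun _ => hA, fun i j hij => absurd (Subsingleton.elim i j) hij⟩
  exact Nat.sInf_le (two_of_one (Nat.sInf_mem hne))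

end Pool.Agent.Results.MP_d9baa8_co.TwoRulers
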